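import Mathlib

namespace Pool.Agent.Results.MP_9b97c3_lc.NoSingleJump

/-- The `G`-jump of the relation `E` on `X`, a relation on `G → X`. -/
def Jump {X : Type} (E : X → X → Prop) (G : Type) [Group G] : (G → X) → (G → X) → Prop :=
  fun α β => ∃ g : G, ∀ h : G, E (α (g⁻¹ * h)) (β h)

/-- `E` is Borel reducible to `F`. -/
def BorelReducible {X Y : Type} [TopologicalSpace X] [TopologicalSpace Y]
    (E : X → X → Prop) (F : Y → Y → Prop) : Prop :=
  ∃ f : X → Y, @Measurable X Y (borel X) (borel Y) f ∧ ∀ x x', E x x' ↔ F (f x) (f x')

abbrev Z2 : Type := Multiplicative (ZMod 2)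

/-- classifier of the jump by the group with two elements -/
def cl {X C : Type} (f : X → C) (α : Z2 → X) : Sym2 C :=
  s(f (α (Multiplicative.ofAdd 0)), f (α (Multiplicative.ofAdd 1)))

lemma cl_spec {X C : Type} (E : X → X → Prop) (f : X → C) (h : ∀ x y, E x y ↔ f x = f y)
    (α β : Z2 → X) : Jump E Z2 α β ↔ cl f α = cl f β := by
  have h2 : ∀ P : Z2 → Prop, (∀ g, P g) ↔
      P (Multiplicative.ofAdd 0) ∧ P (Multiplicative.ofAdd 1) := by
    intro P
    constructor
    · intro hP; exact ⟨hP _, hP _⟩
    · rintro ⟨h0, h1⟩ g
      have : g = Multiplicative.ofAdd 0 ∨ g = Multiplicative.ofAdd 1 := by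
        revert g; decide
      rcases this with rfl | rfl
      · exact h0
      · exact h1
  have h3 : ∀ P : Z2 → Prop, (∃ g, P g) ↔
      P (Multiplicative.ofAdd 0) ∨ P (Multiplicative.ofAdd 1) := by
    intro P
    constructor
    · rintro ⟨g, hg⟩
      have : g = Multiplicative.ofAdd 0 ∨ g = Multiplicative.ofAdd 1 := by
        clear hg; revert g; decide
      rcases this with rfl | rfl
      · exact Or.inl hg
      · exact Or.inr hg
    · rintro (h0 | h1)
      · exact ⟨_, h0⟩
      · exact ⟨_, h1⟩
  unfold Jump cl
  simp only [h2, h3, h]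
  have e1 : (Multiplicative.ofAdd (0 : ZMod 2))⁻¹ * Multiplicative.ofAdd 0 =
    Multiplicative.ofAdd 0 := by decide
  have e2 : (Multiplicative.ofAdd (0 : ZMod 2))⁻¹ * Multiplicative.ofAdd 1 =
    Multiplicative.ofAdd 1 := by decide
  have e3 : (Multiplicative.ofAdd (1 : ZMod 2))⁻¹ * Multiplicative.ofAdd 0 =
    Multiplicative.ofAdd 1 := by decide
  have e4 : (Multiplicative.ofAdd (1 : ZMod 2))⁻¹ * Multiplicative.ofAdd 1 =
    Multiplicative.ofAdd 0 := by decide
  rw [e1, e2, e3, e4, Sym2.eq_iff]
  tauto

lemma cl_surj {X C : Type} (f : X → C) (hf : Function.Surjective f) :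
    Function.Surjective (cl f) := by
  intro s
  induction s with
  | _ a b =>
    obtain ⟨x, rfl⟩ := hf a
    obtain ⟨y, rfl⟩ := hf b
    refine ⟨fun g => if g = Multiplicative.ofAdd 0 then x else y, ?_⟩
    have : (Multiplicative.ofAdd (1 : ZMod 2)) ≠ Multiplicative.ofAdd 0 := by decide
    simp [cl, this]

abbrev C : Type := Sym2 (Sym2 (Fin 6))

lemma card_C : Fintype.card C = 231 := by
  rw [Sym2.card, Sym2.card]
  decide

lemma growth (k : ℕ) (hk : 4 ≤ k) : 231 * k < 6 ^ k := by
  induction k, hk using Nat.le_induction with
  | base => norm_num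
  | succ n hn ih => rw [pow_succ]; omega

theorem result :
    ∃ (X : Type) (_ : TopologicalSpace X) (_ : PolishSpace X) (E : X → X → Prop)
      (_ : Equivalence E) (G H : Type) (_ : Group G) (_ : Group H) (_ : Finite G) (_ : Finite H),
      ∀ (K : Type) [Group K] [Countable K],
        ¬ (BorelReducible (Jump (Jump E G) H) (Jump E K) ∧
          BorelReducible (Jump E K) (Jump (Jump E G) H)) := by
  refine ⟨Fin 6, inferInstance, inferInstance, Eq, eq_equivalence, Z2, Z2, inferInstance,
    inferInstance, inferInstance, inferInstance, ?_⟩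
  intro K _ _
  rintro ⟨⟨f, -, hf⟩, ⟨g, -, hg⟩⟩
  let c : (Z2 → Z2 → Fin 6) → C := cl (cl id)
  have hc : ∀ x y, Jump (Jump Eq Z2) Z2 x y ↔ c x = c y :=
    cl_spec _ _ (cl_spec _ _ (fun _ _ => Iff.rfl))
  have hcs : Function.Surjective c := cl_surj _ (cl_surj _ Function.surjective_id)
  have hJ : ∀ α : K → Fin 6, Jump Eq K α α := fun α => ⟨1, fun h => by simp⟩
  -- the classes of `Jump Eq K` are the fibres of `F`
  let F : (K → Fin 6) → C := fun α => c (g α)
  have hF : ∀ α β, Jump Eq K α β ↔ F α = F β := fun α β => (hg α β).trans (hc _ _)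
  have hcover : ∀ β : K → Fin 6, ∀ α, F α = F β → ∃ k : K, α = fun h => β (k * h) := by
    intro β α h
    obtain ⟨k, hk⟩ := (hF α β).2 h
    refine ⟨k, ?_⟩
    funext h
    have := hk (k * h)
    simpa using this
  rcases finite_or_infinite K with hfin | hinf
  · have := Fintype.ofFinite K
    classical
    by_cases hk : Fintype.card K ≤ 3
    · -- too few points
      choose s hs using hcs
      have hinj : Function.Injective (fun a => f (s a)) := by
        intro a b hab
        have hab : f (s a) = f (s b) := hab
        have := (hf (s a) (s b)).2 (hab ▸ hJ _)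
        rw [hc, hs, hs] at this
        exact this
      have h1 := Fintype.card_le_of_injective _ hinj
      rw [card_C, Fintype.card_fun, Fintype.card_fin] at h1
      have h2 : 6 ^ Fintype.card K ≤ 6 ^ 3 := Nat.pow_le_pow_right (by norm_num) hk
      omega
    · -- too many classes
      have h1 := Finset.card_le_mul_card_image_of_maps_to
        (s := (Finset.univ : Finset (K → Fin 6))) (t := (Finset.univ : Finset C)) (f := F)
        (fun _ _ => Finset.mem_univ _) (Fintype.card K) (by
          intro b _
          rcases Finset.eq_empty_or_nonempty (Finset.univ.filter fun a => F a = b) with h | h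
          · rw [h]; simp
          · obtain ⟨β, hβ⟩ := h
            rw [Finset.mem_filter] at hβ
            refine le_trans (Finset.card_le_card (t := Finset.univ.image
              (fun k : K => (fun h => β (k * h) : K → Fin 6))) ?_) ?_
            · intro α hα
              rw [Finset.mem_filter] at hα
              obtain ⟨k, hk⟩ := hcover β α (hα.2.trans hβ.2.symm)
              exact Finset.mem_image.2 ⟨k, Finset.mem_univ _, hk.symm⟩
            · exact Finset.card_image_le)
      rw [Finset.card_univ, Finset.card_univ, card_C, Fintype.card_fun, Fintype.card_fin] at h1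
      have h2 := growth (Fintype.card K) (by omega)
      rw [mul_comm] at h2
      omega
  · -- uncountably many points in countable classes
    have h1 : (Set.univ : Set (K → Fin 6)).Countable := by
      have : (Set.univ : Set (K → Fin 6)) = ⋃ b : C, {α | F α = b} := by
        ext α; simp
      rw [this]
      refine Set.countable_iUnion fun b => ?_
      rcases Set.eq_empty_or_nonempty {α | F α = b} with h | ⟨β, hβ⟩
      · rw [h]; exact Set.countable_empty
      · refine (Set.countable_range (fun k : K => (fun h => β (k * h) : K → Fin 6))).mono ?_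
        intro α hα
        obtain ⟨k, hk⟩ := hcover β α (Eq.trans hα (Eq.symm hβ))
        exact ⟨k, hk.symm⟩
    have h2 : Countable (K → Fin 6) := Set.countable_univ_iff.1 h1
    classical
    have h3 : Countable (Set K) := by
      refine Function.Injective.countable (f := fun (s : Set K) (k : K) =>
        (if k ∈ s then (0 : Fin 6) else 1)) ?_
      intro s t hst
      ext k
      have h4 : (if k ∈ s then (0 : Fin 6) else 1) = if k ∈ t then (0 : Fin 6) else 1 :=
        congrFun hst k
      by_cases hs : k ∈ s
      · by_cases ht : k ∈ t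
        · exact ⟨fun _ => ht, fun _ => hs⟩
        · rw [if_pos hs, if_neg ht] at h4
          exact absurd h4 (by decide)
      · by_cases ht : k ∈ t
        · rw [if_neg hs, if_pos ht] at h4
          exact absurd h4 (by decide)
        · exact ⟨fun h => absurd h hs, fun h => absurd h ht⟩
    obtain ⟨u, hu⟩ := exists_surjective_nat (Set K)
    have hv := Function.invFun_surjective (Infinite.natEmbedding K).injective
    exact Function.cantor_surjective _ (hu.comp hv)

end Pool.Agent.Results.MP_9b97c3_lc.NoSingleJump
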